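import Pool.Agent.Helper808.Cube.Main

set_option autoImplicit false

namespace Pool.Agent.Results.MP_dba4bb_co.AntipodalBound

open Pool.Agent.Helper808.Cube

/-- **Main result.** (1) If an `x × y` sheet can be folded so that it wraps a cube of side `s`,
then `s ≤ √(x² + y²) / 4` (a quarter of the diagonal). (2) Hence `σ(r) ≤ √(1 + r²) / 4` for every
`r ≥ 1`. (3) For `1 ≤ r ≤ 2.215` this is strictly smaller than the area bound `√(r / 6)`. -/
theorem result :
    (∀ x y s : ℝ, 0 < x → x ≤ y → 0 < s → (∃ f, Wraps x y s f) →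
      s ≤ Real.sqrt (x ^ 2 + y ^ 2) / 4) ∧
    (∀ r : ℝ, 1 ≤ r → sigma r ≤ Real.sqrt (1 + r ^ 2) / 4) ∧
    (∀ r : ℝ, 1 ≤ r → r ≤ 2.215 → Real.sqrt (1 + r ^ 2) / 4 < Real.sqrt (r / 6)) :=
  all

end Pool.Agent.Results.MP_dba4bb_co.AntipodalBound
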